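import Pool.Agent.H28.Rad.Def
import Pool.Agent.H28.Rad.Final

set_option autoImplicit false

/-! Question Q1: there is a first-order definable radical class of groups which is not locally
finite and is not the class of all groups. -/

namespace Pool.Agent.Results.MP_cf13c7_al.DefinableRadical

open Pool.Agent.H28.Rad

universe u

/-- There is a single first-order sentence `φ` in the language of groups such that the class of all
groups satisfying `φ` is a radical class, contains a group which is not locally finite, and is not
the class of all groups. -/
theorem result :
    ∃ φ : grp.Sentence, IsRadical.{u} (fun G _ => Sat φ G) ∧
      (∃ (G : Type u) (_ : Group G), Sat φ G ∧ ¬ LocallyFiniteGroup G) ∧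
      (∃ (G : Type u) (_ : Group G), ¬ Sat φ G) :=
  main_theorem

end Pool.Agent.Results.MP_cf13c7_al.DefinableRadical
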